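import Mathlib
import Pool.Agent.Results.MP_8efaaa_nt.AlmostPrimeIntervals
import Pool.Agent.V11287.MI.Lin

set_option autoImplicit false

/-!
# Congruent numbers of the classes `5, 6, 7` modulo `8` among the integer parts `⌊α v_n⌋`

Let `κ > 3`. There is `R` such that for every real sequence `v_0 > 1`, `v_(n+1) ≥ v_n ^ κ` and all
squarefree `s_n ≡ 5, 6, 7` modulo `8` and moduli `M_n` up to a power of `v_n`, every interval contains
uncountably many `α` for which all `⌊α v_n⌋`, `n ≥ n₀`, are squarefree congruent numbers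
`≡ s_n` modulo `8 M_n` with at most `R` prime factors outside the common divisor with the modulus.
-/

namespace Pool.Agent.Results.MP_8efaaa_nt.AlongMultiples

open Filter Topology
open Pool.Agent.Results.MP_8efaaa_nt.AlmostPrimeIntervals (Congruent congruent_of)

/-- `N` is a squarefree congruent number, `N ≡ s` modulo `8 M` and `N = gcd (s, M) m`, where `m` has
at most `R` prime factors (with multiplicity), the odd ones larger than `N ^ (1 / R)`. -/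
def Nice (R s M N : ℕ) : Prop :=
  Squarefree N ∧ N ≡ s [MOD 8 * M] ∧ Congruent N ∧
    ∃ m, N = Nat.gcd s M * m ∧ m.primeFactorsList.length ≤ R ∧
      ∀ p : ℕ, p.Prime → p ≠ 2 → p ∣ m → (N : ℝ) ^ (1 / (R : ℝ)) < (p : ℝ)

/-- the elements of short intervals -/
theorem short (θ : ℝ) (hθ : 2 / 3 < θ) (hθ1 : θ ≤ 17 / 24) : ∃ R : ℕ, ∃ X₁ : ℝ, ∀ X : ℝ,
    X₁ ≤ X → ∀ s M : ℕ, Squarefree s → 0 < M → (M : ℝ) ≤ X ^ ((θ - 2 / 3) / 14) →
      ∃ N : ℕ, Nice R s M N ∧ X ≤ (N : ℝ) ∧ (N : ℝ) ≤ X + X ^ θ := by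
  obtain ⟨R, hR, X₀, h⟩ := Pool.Agent.Y859.SI.main θ hθ hθ1
  refine ⟨2 * R, max X₀ 2, ?_⟩
  intro X hX s M hs hM hMX
  have hX2 : 2 ≤ X := (le_max_right _ _).trans hX
  have h1 := h X ((le_max_left _ _).trans hX) M hM hMX s hs
  have h2 : 0 < X ^ (1 / 12 : ℝ) := Real.rpow_pos_of_pos (by linarith) _
  have h3 := h2.trans_le h1
  have h4 : ({n : ℕ | X ≤ n ∧ (n : ℝ) ≤ X + X ^ θ ∧ Squarefree n ∧
        n ≡ s [MOD 8 * M] ∧ Pool.Agent.Y859.SI.Cong n ∧
        ∃ m, n = Nat.gcd s M * m ∧ Pool.Agent.Y859.SI.Few R X m}).ncard ≠ 0 := by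
    intro h0
    rw [h0] at h3
    simp at h3
  obtain ⟨N, g1, g2, g3, g4, g5, m, g6, g7, g8⟩ := Set.nonempty_of_ncard_ne_zero h4
  refine ⟨N, ⟨g3, g4, congruent_of N g5, m, g6, g7.trans (by omega), ?_⟩, g1, g2⟩
  intro p hp hp2 hpm
  refine lt_of_le_of_lt ?_ (g8 p hp hp2 hpm)
  have e1 : X ^ θ ≤ X := by
    calc X ^ θ ≤ X ^ (1 : ℝ) := Real.rpow_le_rpow_of_exponent_le (by linarith) (by linarith)
      _ = X := Real.rpow_one X
  have e2 : (N : ℝ) ≤ X ^ (2 : ℝ) := by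
    rw [Real.rpow_two]
    nlinarith
  have hR0 : (0 : ℝ) < R := by exact_mod_cast hR
  calc (N : ℝ) ^ (1 / ((2 * R : ℕ) : ℝ)) ≤ (X ^ (2 : ℝ)) ^ (1 / ((2 * R : ℕ) : ℝ)) :=
        Real.rpow_le_rpow (Nat.cast_nonneg N) e2 (by positivity)
    _ = X ^ (1 / (R : ℝ)) := by
        rw [← Real.rpow_mul (by linarith)]
        congr 1
        push_cast
        field_simp

/-- **Congruent numbers of the classes `5, 6, 7` modulo `8` among the `⌊α v_n⌋`.** -/
theorem result (κ : ℝ) (hκ : 3 < κ) : ∃ R : ℕ, ∃ δ : ℝ, 0 < δ ∧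
    ∀ v : ℕ → ℝ, 1 < v 0 → (∀ n, v n ^ κ ≤ v (n + 1)) →
    ∀ s M : ℕ → ℕ, (∀ n, Squarefree (s n) ∧ (s n % 8 = 5 ∨ s n % 8 = 6 ∨ s n % 8 = 7)) →
    (∀ n, 0 < M n) → (∀ᶠ n in atTop, (M n : ℝ) ≤ v n ^ δ) → ∀ a b : ℝ, 0 < a → a < b →
      ∃ n₀, ¬ {A : ℝ | a < A ∧ A < b ∧
        ∀ n, n₀ ≤ n → Nice R (s n) (M n) ⌊A * v n⌋₊}.Countable := by
  obtain ⟨θ, hθd⟩ : ∃ θ : ℝ, θ = min (17 / 24) ((2 / 3 + (1 - 1 / κ)) / 2) := ⟨_, rfl⟩
  have hc0 : 0 < κ := by linarith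
  have hcinv : 1 / κ < 1 / 3 := one_div_lt_one_div_of_lt (by norm_num) hκ
  have hθ : 2 / 3 < θ := by
    rw [hθd, lt_min_iff]
    constructor
    · norm_num
    · linarith
  have hθ1 : θ ≤ 17 / 24 := by
    rw [hθd]
    exact min_le_left _ _
  have hθ2 : θ < 1 - 1 / κ := by
    have : θ ≤ (2 / 3 + (1 - 1 / κ)) / 2 := by
      rw [hθd]
      exact min_le_right _ _
    linarith
  obtain ⟨η, hηd⟩ : ∃ η : ℝ, η = κ * (1 - θ) - 1 := ⟨_, rfl⟩
  have hη : 0 < η := by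
    have h1 : 1 / κ < 1 - θ := by linarith
    have h2 : κ * (1 / κ) < κ * (1 - θ) := mul_lt_mul_of_pos_left h1 hc0
    rw [mul_one_div_cancel hc0.ne'] at h2
    linarith
  obtain ⟨R, X₁, hshort⟩ := short θ hθ hθ1
  obtain ⟨δ', hδd⟩ : ∃ δ : ℝ, δ = (θ - 2 / 3) / 14 := ⟨_, rfl⟩
  have hδ' : 0 < δ' := by
    rw [hδd]
    linarith
  rw [← hδd] at hshort
  refine ⟨R, δ' / 2, by positivity, ?_⟩
  intro v hv0 hv s M hs hM hMv a b ha hab
  have hb : 0 < b := ha.trans hab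
  -- the growth
  have hgrow : ∀ n, v 0 ^ (n + 1) ≤ v n := by
    intro n
    induction n with
    | zero => simp
    | succ n ih =>
      have h1 : v 0 ≤ v 0 ^ (n + 1) := le_self_pow₀ hv0.le (by omega)
      have h2 : v 0 ≤ v n := h1.trans ih
      have h3 : 1 ≤ v n := hv0.le.trans h2
      calc v 0 ^ (n + 1 + 1) = v 0 ^ (n + 1) * v 0 := pow_succ _ _
        _ ≤ v n * v n := mul_le_mul ih h2 (by linarith) (by linarith)
        _ = v n ^ (2 : ℝ) := by rw [Real.rpow_two]; ring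
        _ ≤ v n ^ κ := Real.rpow_le_rpow_of_exponent_le h3 (by linarith)
        _ ≤ v (n + 1) := hv n
  have hvtop : Tendsto v atTop atTop := by
    refine tendsto_atTop_mono hgrow ?_
    exact (tendsto_pow_atTop_atTop_of_one_lt hv0).comp (tendsto_add_atTop_nat 1)
  -- large values
  have p1 := (tendsto_rpow_atTop hη).eventually_ge_atTop (16 * b ^ θ)
  have p2 := (tendsto_rpow_atTop (show (0 : ℝ) < 1 - θ by linarith)).eventually_ge_atTop
    (8 * b ^ θ / (b - a))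
  have p3 := (tendsto_rpow_atTop (show (0 : ℝ) < δ' / 2 by positivity)).eventually_ge_atTop
    (1 / a ^ δ')
  have p4 := eventually_ge_atTop (max 1 (max (1 / a) (X₁ / a)))
  obtain ⟨n₀, hn₀⟩ := eventually_atTop.1 (hMv.and (hvtop.eventually
    (p1.and (p2.and (p3.and p4)))))
  have big : ∀ n, n₀ ≤ n → 1 ≤ v n ∧ 1 ≤ a * v n ∧ X₁ ≤ a * v n ∧ (M n : ℝ) ≤ (a * v n) ^ δ' := by
    intro n hn
    obtain ⟨g0, -, -, g3, g4⟩ := hn₀ n hn
    have g5 : 1 ≤ v n := (le_max_left _ _).trans g4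
    have g6 : 1 / a ≤ v n := ((le_max_left _ _).trans (le_max_right _ _)).trans g4
    have g7 : X₁ / a ≤ v n := ((le_max_right _ _).trans (le_max_right _ _)).trans g4
    rw [div_le_iff₀ ha] at g6 g7
    have hv' : 0 < v n := by linarith
    refine ⟨g5, by linarith, by linarith, g0.trans ?_⟩
    have g8 : 0 < a ^ δ' := Real.rpow_pos_of_pos ha _
    rw [div_le_iff₀ g8] at g3
    have g9 : v n ^ δ' = v n ^ (δ' / 2) * v n ^ (δ' / 2) := by
      rw [← Real.rpow_add hv']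
      congr 1
      ring
    rw [Real.mul_rpow ha.le hv'.le, g9]
    have g10 : 0 < v n ^ (δ' / 2) := Real.rpow_pos_of_pos hv' _
    nlinarith
  refine ⟨n₀, fun hcount => ?_⟩
  obtain ⟨-, q1, q2, -, -⟩ := hn₀ n₀ le_rfl
  obtain ⟨r1, r2, -, -⟩ := big n₀ le_rfl
  have hv' : 0 < v n₀ := by linarith
  refine Pool.Agent.V11287.MI.multiples (θ := θ) (κ := κ) (η := η) (by linarith) hη (by linarith)
    (by linarith) (fun n => v (n + n₀)) (by simpa using r1) ?_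
    (fun n => {N | Nice R (s (n + n₀)) (M (n + n₀)) N}) ha hab (by simpa using q1)
    (by simpa using r2) ?_ ?_ ?_
  · intro n
    have := hv (n + n₀)
    have h2 : n + n₀ + 1 = n + 1 + n₀ := by ring
    rw [h2] at this
    exact this
  · simp only [zero_add]
    have hba : 0 < b - a := by linarith
    rw [div_le_iff₀ hba] at q2
    have h4 : v n₀ = v n₀ ^ θ * v n₀ ^ (1 - θ) := by
      rw [← Real.rpow_add hv']
      have : θ + (1 - θ) = 1 := by ring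
      rw [this, Real.rpow_one]
    have h5 : 0 < v n₀ ^ θ := Real.rpow_pos_of_pos hv' _
    have h6 : 8 * (b * v n₀) ^ θ ≤ (b - a) * v n₀ := by
      rw [Real.mul_rpow hb.le hv'.le]
      calc 8 * (b ^ θ * v n₀ ^ θ) = (8 * b ^ θ) * v n₀ ^ θ := by ring
        _ ≤ (v n₀ ^ (1 - θ) * (b - a)) * v n₀ ^ θ := mul_le_mul_of_nonneg_right q2 h5.le
        _ = (b - a) * (v n₀ ^ θ * v n₀ ^ (1 - θ)) := by ring
        _ = (b - a) * v n₀ := by rw [← h4]
    linarith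
  · intro n X hX
    obtain ⟨g1, g2, g3, g4⟩ := big (n + n₀) (by omega)
    have h2 : (M (n + n₀) : ℝ) ≤ X ^ δ' :=
      g4.trans (Real.rpow_le_rpow (by linarith) hX hδ'.le)
    obtain ⟨N, k1, k2, k3⟩ := hshort X (g3.trans hX) (s (n + n₀)) (M (n + n₀)) (hs _).1 (hM _) h2
    exact ⟨N, k1, k2, k3⟩
  · refine hcount.mono ?_
    rintro A ⟨h1, h2, h3⟩
    refine ⟨h1, h2, fun n hn => ?_⟩
    obtain ⟨k, rfl⟩ := Nat.exists_eq_add_of_le' hn
    exact h3 k

end Pool.Agent.Results.MP_8efaaa_nt.AlongMultiples
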